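import Pool.Agent.R968.ShiqProb

/-!
# The stochastic hyperbolic infinite quadrangulation is nonamenable

Almost surely the SHIQ is a connected, locally finite graph in which every finite vertex set `S`
satisfies `|S|_deg ≤ 5 |∂_E S|`. In particular its anchored expansion constant is at least `1 / 5`,
from every vertex.

The construction: the full ternary tree `Tri` is embedded in the plane, the edge from the vertex
`v` to its parent carries the increment `D v`, uniform on `{-1, 0, 1}` and independent (the value
at the root is not used), the labels are the sums of the increments, and each corner `c` is joined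
to its successor: the first corner after `c` in the clockwise contour whose label is the label of
`c` minus one.
-/

set_option autoImplicit false

open MeasureTheory ProbabilityTheory Filter
open scoped Topology

namespace Pool.Agent.Results.MP_b23abe_pr.CheegerOneFifth

open Pool.Agent.R968

theorem result {Ω : Type*} [MeasurableSpace Ω] (P : Measure Ω) [IsProbabilityMeasure P]
    (D : Tri → Ω → ℤ) (hind : iIndepFun D P) (hunif : ∀ v, IsUnif P (D v)) :
    ∀ᵐ ω ∂P, (∀ c, ∃ c', IsSucc (fun v => D v ω) c c') ∧
      (shiq fun v => D v ω).toSimple.Connected ∧
      (∀ v, (shiq fun v => D v ω).deg v < ⊤) ∧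
      (∀ S : Finset Tri,
        (shiq fun v => D v ω).degSum S ≤ 5 * ((shiq fun v => D v ω).boundary S).encard) ∧
      ∀ o, Tendsto ((shiq fun v => D v ω).isoInf o) atTop (𝓝 ((shiq fun v => D v ω).anchored o)) ∧
        1 / 5 ≤ (shiq fun v => D v ω).anchored o := by
  filter_upwards [ae_smallD hunif, ae_rays hind hunif] with ω hd hr
  exact ⟨exists_succ hd hr, shiq_connected hd hr, shiq_deg hd hr, degSum_le hd hr,
    fun o => ⟨tendsto_isoInf _ o, (le_anchored hd hr o 0).trans (le_iSup _ 0)⟩⟩

end Pool.Agent.Results.MP_b23abe_pr.CheegerOneFifth
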